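import Pool.Agent.H850.RG.Diag
import Pool.Agent.H850.TF.Cheb

/-!
# Densities
-/

set_option autoImplicit false

namespace Pool.Agent.H850.OP

open NumberField Filter Topology IsDedekindDomain MeasureTheory
open Pool.Agent.W401.Cheb Pool.Agent.W352.ChAbs Pool.Agent.H850.RG
open scoped Pointwise ENNReal

variable {K : Type} [Field K] [NumberField K]

/-- **Closed null sets invariant under conjugation.** The places with a Frobenius element in such
a set have density zero. -/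
theorem dens_null_conj [MeasurableSpace (GK K)] [BorelSpace (GK K)] (μ : Measure (GK K))
    [μ.IsHaarMeasure] [μ.OuterRegular] {B : Set (GK K)} (hB : IsClosed B) (hB0 : μ B = 0)
    (hconj : ∀ σ ∈ B, ∀ τ : GK K, τ * σ * τ⁻¹ ∈ B) :
    Tendsto (dens fun v : HeightOneSpectrum (𝓞 K) => ∃ σ ∈ B, IsFrob v σ) atTop (𝓝 0) := by
  have huniv : 0 < (μ Set.univ).toReal := by
    apply ENNReal.toReal_pos
    · exact (isOpen_univ.measure_pos μ ⟨1, trivial⟩).ne'
    · exact measure_ne_top μ _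
  rw [Metric.tendsto_atTop]
  intro ε hε
  set δ : ℝ := ε / 2 * (μ Set.univ).toReal with hδ
  have hδ0 : 0 < δ := by positivity
  obtain ⟨O, hO, hOo, hOδ⟩ := B.exists_isOpen_lt_of_lt (μ := μ) (ENNReal.ofReal δ) (by
    rw [hB0]
    exact ENNReal.ofReal_pos.2 hδ0)
  obtain ⟨V, hV, hVO⟩ := compact_open_separated_mul_right hB.isCompact hOo hO
  obtain ⟨E, hE, hEn, hEV⟩ := (krullTopology_mem_nhds_one_iff_of_normal K (AlgebraicClosure K) V).1
    hV
  set U : Subgroup (GK K) := E.fixingSubgroup with hU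
  have hUo : IsOpen (U : Set (GK K)) := E.fixingSubgroup_isOpen
  have hUn : U.Normal := by
    rw [hU]
    exact (InfiniteGalois.normal_iff_isGalois E).2 ⟨⟩
  set C : Set (GK K) := B * (U : Set (GK K)) with hC
  have hC1 : ∀ σ ∈ C, ∀ τ : GK K, τ * σ * τ⁻¹ ∈ C := by
    rintro _ ⟨b, hb, u, hu, rfl⟩ τ
    refine ⟨τ * b * τ⁻¹, hconj b hb τ, τ * u * τ⁻¹, hUn.conj_mem u hu τ, ?_⟩
    simp only
    group
  have hC2 : ∀ σ ∈ C, ∀ u ∈ U, σ * u ∈ C := by
    rintro _ ⟨b, hb, u, hu, rfl⟩ u' hu'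
    exact ⟨b, hb, u * u', U.mul_mem hu hu', (mul_assoc _ _ _).symm⟩
  have hlim := chebK K U hUo C hC1 hC2
  rw [ratio_eq μ U hUo C hC2] at hlim
  have hCO : C ⊆ O := (Set.mul_subset_mul_left hEV).trans hVO
  have hCm : (μ C).toReal / (μ Set.univ).toReal < ε := by
    have h1 : (μ C).toReal < δ := by
      have h2 : μ C < ENNReal.ofReal δ := lt_of_le_of_lt (measure_mono hCO) hOδ
      exact (ENNReal.lt_ofReal_iff_toReal_lt (measure_ne_top μ _)).1 h2
    rw [div_lt_iff₀ huniv]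
    have h3 : δ < ε * (μ Set.univ).toReal := by
      rw [hδ]
      nlinarith [mul_pos hε huniv]
    exact h1.trans h3
  have hev := (tendsto_order.1 hlim).2 ε hCm
  obtain ⟨N₀, hN₀⟩ := eventually_atTop.1 hev
  refine ⟨N₀, fun N hN => ?_⟩
  rw [Real.dist_eq, sub_zero, abs_of_nonneg (dens_nonneg _ N)]
  refine lt_of_le_of_lt (dens_mono (fun v hv => ?_) N) (hN₀ N hN)
  obtain ⟨σ, hσB, hσ⟩ := hv
  exact ⟨σ, ⟨σ, hσB, 1, U.one_mem, mul_one σ⟩, hσ⟩

/-- finite sets of places have density zero -/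
theorem dens_finite (P : HeightOneSpectrum (𝓞 K) → Prop) (hP : {v | P v}.Finite) :
    Tendsto (dens P) atTop (𝓝 0) := by
  refine squeeze_zero (fun N => dens_nonneg P N) (fun N => ?_)
    (const_div_pi (({v | P v} : Set (HeightOneSpectrum (𝓞 K))).ncard : ℝ))
  unfold dens
  have h1 : Nat.card {v : HeightOneSpectrum (𝓞 K) // Ideal.absNorm v.asIdeal ≤ N ∧ P v} ≤
      ({v | P v} : Set (HeightOneSpectrum (𝓞 K))).ncard := by
    have e : Nat.card {v : HeightOneSpectrum (𝓞 K) // Ideal.absNorm v.asIdeal ≤ N ∧ P v} =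
        {v : HeightOneSpectrum (𝓞 K) | Ideal.absNorm v.asIdeal ≤ N ∧ P v}.ncard := rfl
    rw [e]
    exact Set.ncard_le_ncard (fun v hv => hv.2) hP
  gcongr

/-- places of degree greater than one have density zero -/
theorem dens_degree : Tendsto (dens fun v : HeightOneSpectrum (𝓞 K) =>
    ¬ (Ideal.absNorm v.asIdeal).Prime) atTop (𝓝 0) := by
  have h0 : Tendsto (fun N : ℕ => (Module.finrank ℚ K : ℝ) *
      ((Nat.sqrt N + 1 : ℝ) / (Nat.primeCounting N : ℝ))) atTop (𝓝 0) := by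
    simpa using sqrt_div_pi.const_mul (Module.finrank ℚ K : ℝ)
  refine squeeze_zero (fun N => dens_nonneg _ N) (fun N => ?_) h0
  obtain ⟨R, hR, hcard⟩ := decomp (K := K)
    (fun v : HeightOneSpectrum (𝓞 K) => ¬ (Ideal.absNorm v.asIdeal).Prime) N
  have h1 : ∀ p ∈ Pool.Agent.W401.Cheb.pr N, Nat.card {v : HeightOneSpectrum (𝓞 K) //
      Ideal.absNorm v.asIdeal = p ∧ ¬ (Ideal.absNorm v.asIdeal).Prime} = 0 := by
    intro p hp
    have hp' : p.Prime := (Finset.mem_filter.mp hp).2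
    have : IsEmpty {v : HeightOneSpectrum (𝓞 K) //
        Ideal.absNorm v.asIdeal = p ∧ ¬ (Ideal.absNorm v.asIdeal).Prime} := by
      refine ⟨fun v => v.2.2 ?_⟩
      rw [v.2.1]
      exact hp'
    exact Nat.card_of_isEmpty
  rw [Finset.sum_eq_zero h1, zero_add] at hcard
  unfold dens
  rw [hcard, mul_div_assoc']
  gcongr
  exact_mod_cast hR

theorem tendsto_or {P Q : HeightOneSpectrum (𝓞 K) → Prop} (hP : Tendsto (dens P) atTop (𝓝 0))
    (hQ : Tendsto (dens Q) atTop (𝓝 0)) :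
    Tendsto (dens fun v => P v ∨ Q v) atTop (𝓝 0) := by
  have h1 := hP.add hQ
  rw [add_zero] at h1
  exact squeeze_zero (fun N => dens_nonneg _ N) (fun N => dens_or P Q N) h1

theorem tendsto_mono {P Q : HeightOneSpectrum (𝓞 K) → Prop} (h : ∀ v, P v → Q v)
    (hQ : Tendsto (dens Q) atTop (𝓝 0)) : Tendsto (dens P) atTop (𝓝 0) :=
  squeeze_zero (fun N => dens_nonneg _ N) (fun N => dens_mono h N) hQ

end Pool.Agent.H850.OP
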