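import Pool.Agent.H850.OP.Roots

/-!
# Norms of the coefficients of Frobenius polynomials
-/

set_option autoImplicit false

namespace Pool.Agent.H850.OP

open Polynomial NumberField

variable {E : Type} [Field E] [NumberField E]

/-- the number ring inside the complex numbers -/
noncomputable abbrev emb (ψ : E →+* ℂ) : 𝓞 E →+* ℂ := ψ.comp (algebraMap (𝓞 E) E)

theorem emb_injective (ψ : E →+* ℂ) : Function.Injective (emb ψ) :=
  ψ.injective.comp (FaithfulSMul.algebraMap_injective (𝓞 E) E)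

/-- the norm as a product over the complex embeddings -/
theorem norm_eq_prod (a : 𝓞 E) :
    ((Algebra.norm ℤ a : ℤ) : ℂ) = ∏ ψ : E →+* ℂ, emb ψ a := by
  have h1 := Algebra.norm_eq_prod_embeddings ℚ ℂ (a : E)
  have h2 : ((Algebra.norm ℤ a : ℤ) : ℂ) = algebraMap ℚ ℂ (Algebra.norm ℚ (a : E)) := by
    rw [← Algebra.coe_norm_int]
    simp
  rw [h2, h1]
  exact (Fintype.prod_equiv (RingHom.equivRatAlgHom E ℂ) _ _ fun ψ => rfl).symm

theorem card_emb : Fintype.card (E →+* ℂ) = Module.finrank ℚ E :=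
  Embeddings.card E ℂ

/-- a polynomial whose complex roots have absolute value `q ^ (w / 2)` -/
def IsWeil (P : (𝓞 E)[X]) (q w : ℕ) : Prop :=
  ∀ (ψ : E →+* ℂ) (z : ℂ), (P.map (emb ψ)).IsRoot z → ‖z‖ ^ 2 = (q : ℝ) ^ w

variable {P : (𝓞 E)[X]} {n q w : ℕ}

theorem norm_root (hW : IsWeil P q w) (hP : P.Monic) (ψ : E →+* ℂ) :
    ∀ z ∈ (P.map (emb ψ)).roots, ‖z‖ = Real.sqrt ((q : ℝ) ^ w) := by
  intro z hz
  have h1 := hW ψ z ((mem_roots (hP.map _).ne_zero).1 hz)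
  rw [← h1, Real.sqrt_sq (norm_nonneg z)]

theorem norm_coeff_le (hW : IsWeil P q w) (hP : P.Monic) (hn : P.natDegree = n) {m : ℕ}
    (hm : m ≤ n) (ψ : E →+* ℂ) :
    ‖emb ψ (P.coeff (n - m))‖ ^ 2 ≤ ((n.choose m : ℝ)) ^ 2 * ((q : ℝ) ^ w) ^ m := by
  have hPψ := hP.map (emb ψ)
  have hnψ : (P.map (emb ψ)).natDegree = n := by rw [hP.natDegree_map, hn]
  obtain ⟨h1, h2⟩ := norm_coeff_eq (P.map (emb ψ)) hPψ hnψ hm
  have h3 := norm_esymm_le _ _ (norm_root hW hP ψ) m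
  rw [← coeff_map, h1]
  rw [h2] at h3
  have h4 : (0 : ℝ) ≤ (q : ℝ) ^ w := by positivity
  calc ‖(P.map (emb ψ)).roots.esymm m‖ ^ 2 ≤ (n.choose m * Real.sqrt ((q : ℝ) ^ w) ^ m) ^ 2 := by
        gcongr
    _ = (n.choose m : ℝ) ^ 2 * (Real.sqrt ((q : ℝ) ^ w) ^ 2) ^ m := by ring
    _ = _ := by rw [Real.sq_sqrt h4]

theorem norm_coeff_zero (hW : IsWeil P q w) (hP : P.Monic) (hn : P.natDegree = n)
    (ψ : E →+* ℂ) : ‖emb ψ (P.coeff 0)‖ ^ 2 = ((q : ℝ) ^ w) ^ n := by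
  have hPψ := hP.map (emb ψ)
  have hnψ : (P.map (emb ψ)).natDegree = n := by rw [hP.natDegree_map, hn]
  obtain ⟨h1, h2⟩ := norm_coeff_eq (P.map (emb ψ)) hPψ hnψ le_rfl
  rw [Nat.sub_self] at h1
  rw [← coeff_map, h1]
  have h3 : (P.map (emb ψ)).roots.esymm n = (P.map (emb ψ)).roots.prod := by
    rw [Multiset.esymm, ← h2, Multiset.powersetCard_self, Multiset.map_singleton,
      Multiset.sum_singleton]
  rw [h3, norm_prod_eq _ _ (norm_root hW hP ψ), h2]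
  have h4 : (0 : ℝ) ≤ (q : ℝ) ^ w := by positivity
  calc (Real.sqrt ((q : ℝ) ^ w) ^ n) ^ 2 = (Real.sqrt ((q : ℝ) ^ w) ^ 2) ^ n := by ring
    _ = _ := by rw [Real.sq_sqrt h4]

theorem norm_sq_eq (a : 𝓞 E) :
    (((Algebra.norm ℤ a : ℤ) : ℝ)) ^ 2 = ∏ ψ : E →+* ℂ, ‖emb ψ a‖ ^ 2 := by
  rw [Finset.prod_pow, ← norm_prod, ← norm_eq_prod]
  have h1 : ‖((Algebra.norm ℤ a : ℤ) : ℂ)‖ = |((Algebra.norm ℤ a : ℤ) : ℝ)| := by
    rw [Complex.norm_intCast]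
  rw [h1, sq_abs]

/-- bound for the norm of a coefficient -/
theorem norm_le (hW : IsWeil P q w) (hP : P.Monic) (hn : P.natDegree = n) {m : ℕ}
    (hm : m ≤ n) : (Algebra.norm ℤ (P.coeff (n - m))).natAbs ^ 2 ≤
      (n.choose m ^ Module.finrank ℚ E) ^ 2 * q ^ (Module.finrank ℚ E * w * m) := by
  have h1 : (((Algebra.norm ℤ (P.coeff (n - m)) : ℤ) : ℝ)) ^ 2 ≤
      ∏ _ψ : E →+* ℂ, (((n.choose m : ℝ)) ^ 2 * ((q : ℝ) ^ w) ^ m) := by
    rw [norm_sq_eq]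
    exact Finset.prod_le_prod (fun ψ _ => by positivity) fun ψ _ => norm_coeff_le hW hP hn hm ψ
  rw [Finset.prod_const, Finset.card_univ, card_emb] at h1
  have h2 : (((Algebra.norm ℤ (P.coeff (n - m))).natAbs ^ 2 : ℕ) : ℝ) =
      (((Algebra.norm ℤ (P.coeff (n - m)) : ℤ) : ℝ)) ^ 2 := by
    push_cast
    rw [Nat.cast_natAbs, Int.cast_abs, sq_abs]
  have h3 : (((Algebra.norm ℤ (P.coeff (n - m))).natAbs ^ 2 : ℕ) : ℝ) ≤
      (((n.choose m ^ Module.finrank ℚ E) ^ 2 * q ^ (Module.finrank ℚ E * w * m) : ℕ) : ℝ) := by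
    rw [h2]
    refine h1.trans (le_of_eq ?_)
    push_cast
    ring
  exact_mod_cast h3

theorem norm_zero (hW : IsWeil P q w) (hP : P.Monic) (hn : P.natDegree = n) :
    (Algebra.norm ℤ (P.coeff 0)).natAbs ^ 2 = q ^ (Module.finrank ℚ E * w * n) := by
  have h1 : (((Algebra.norm ℤ (P.coeff 0) : ℤ) : ℝ)) ^ 2 =
      ∏ _ψ : E →+* ℂ, ((q : ℝ) ^ w) ^ n := by
    rw [norm_sq_eq]
    exact Finset.prod_congr rfl fun ψ _ => norm_coeff_zero hW hP hn ψ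
  rw [Finset.prod_const, Finset.card_univ, card_emb] at h1
  have h2 : (((Algebra.norm ℤ (P.coeff 0)).natAbs ^ 2 : ℕ) : ℝ) =
      (((Algebra.norm ℤ (P.coeff 0) : ℤ) : ℝ)) ^ 2 := by
    push_cast
    rw [Nat.cast_natAbs, Int.cast_abs, sq_abs]
  have h3 : (((Algebra.norm ℤ (P.coeff 0)).natAbs ^ 2 : ℕ) : ℝ) =
      ((q ^ (Module.finrank ℚ E * w * n) : ℕ) : ℝ) := by
    rw [h2, h1]
    push_cast
    ring
  exact_mod_cast h3

/-- equality in the bound: all roots are equal -/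
theorem roots_eq (hq : 0 < q) (hW : IsWeil P q w) (hP : P.Monic) (hn : P.natDegree = n) {m : ℕ}
    (hm0 : 0 < m) (hm : m < n)
    (h : (Algebra.norm ℤ (P.coeff (n - m))).natAbs ^ 2 =
      (n.choose m ^ Module.finrank ℚ E) ^ 2 * q ^ (Module.finrank ℚ E * w * m)) (ψ : E →+* ℂ) :
    ∀ z z', (P.map (emb ψ)).IsRoot z → (P.map (emb ψ)).IsRoot z' → z = z' := by
  classical
  set B : ℝ := ((n.choose m : ℝ)) ^ 2 * ((q : ℝ) ^ w) ^ m with hB
  have hB0 : 0 < B := by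
    have : 0 < n.choose m := Nat.choose_pos hm.le
    positivity
  have hle : ∀ φ : E →+* ℂ, ‖emb φ (P.coeff (n - m))‖ ^ 2 ≤ B := fun φ =>
    norm_coeff_le hW hP hn hm.le φ
  have h2 : ∏ φ : E →+* ℂ, ‖emb φ (P.coeff (n - m))‖ ^ 2 = ∏ _φ : E →+* ℂ, B := by
    rw [← norm_sq_eq, Finset.prod_const, Finset.card_univ, card_emb]
    have h3 : (((Algebra.norm ℤ (P.coeff (n - m))).natAbs ^ 2 : ℕ) : ℝ) =
        (((n.choose m ^ Module.finrank ℚ E) ^ 2 * q ^ (Module.finrank ℚ E * w * m) : ℕ) : ℝ) := by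
      rw [h]
    push_cast at h3
    rw [Nat.cast_natAbs, Int.cast_abs, sq_abs] at h3
    rw [h3, hB]
    ring
  have h3 : ‖emb ψ (P.coeff (n - m))‖ ^ 2 = B := by
    by_contra hne
    have hlt : ‖emb ψ (P.coeff (n - m))‖ ^ 2 < B := lt_of_le_of_ne (hle ψ) hne
    by_cases hpos : ∀ φ : E →+* ℂ, 0 < ‖emb φ (P.coeff (n - m))‖ ^ 2
    · have := Finset.prod_lt_prod (s := Finset.univ)
        (f := fun φ : E →+* ℂ => ‖emb φ (P.coeff (n - m))‖ ^ 2) (g := fun _ => B)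
        (fun φ _ => hpos φ) (fun φ _ => hle φ) ⟨ψ, Finset.mem_univ _, hlt⟩
      rw [h2] at this
      exact lt_irrefl _ this
    · push Not at hpos
      obtain ⟨φ, hφ⟩ := hpos
      have h4 : ‖emb φ (P.coeff (n - m))‖ ^ 2 = 0 := le_antisymm hφ (by positivity)
      rw [Finset.prod_eq_zero (Finset.mem_univ φ) h4] at h2
      have : 0 < ∏ _φ : E →+* ℂ, B := Finset.prod_pos fun _ _ => hB0
      rw [← h2] at this
      exact lt_irrefl _ this
  have hPψ := hP.map (emb ψ)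
  have hnψ : (P.map (emb ψ)).natDegree = n := by rw [hP.natDegree_map, hn]
  obtain ⟨h5, h6⟩ := norm_coeff_eq (P.map (emb ψ)) hPψ hnψ hm.le
  have hq0 : (0 : ℝ) < (q : ℝ) ^ w := by positivity
  have h7 := roots_eq_of_norm_esymm (P.map (emb ψ)).roots (Real.sqrt ((q : ℝ) ^ w))
    (Real.sqrt_pos.2 hq0) (norm_root hW hP ψ) m hm0 (by rw [h6]; exact hm) (by
      rw [h6, ← h5, coeff_map]
      apply le_of_sq_le_sq
      · rw [h3, hB]
        refine le_of_eq ?_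
        calc (↑(n.choose m) * √((q : ℝ) ^ w) ^ m) ^ 2 =
            (n.choose m : ℝ) ^ 2 * (Real.sqrt ((q : ℝ) ^ w) ^ 2) ^ m := by ring
          _ = _ := by rw [Real.sq_sqrt hq0.le]
      · positivity)
  intro z z' hz hz'
  exact h7 z ((mem_roots hPψ.ne_zero).2 hz) z' ((mem_roots hPψ.ne_zero).2 hz')

end Pool.Agent.H850.OP
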