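import Pool.Agent.H850.OP.Rel
import Pool.Agent.H850.RG.ChebNull

/-!
# Orbits of Frobenius elements on embeddings and residue degrees
-/

set_option autoImplicit false
set_option linter.unusedSectionVars false

namespace Pool.Agent.H850.OP

open NumberField Filter Topology IsDedekindDomain
open Pool.Agent.W401.Cheb Pool.Agent.W352.ChAbs

variable {F : Type} [Field F] [NumberField F]
variable {E : Type} [Field E] [NumberField E]

/-- only finitely many primes lie below maximal ideals containing a given nonzero integer -/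
theorem bound_of_mem (y : 𝓞 (AlgebraicClosure F)) (hy : y ≠ 0) :
    ∃ B : ℕ, ∀ q : ℕ, q.Prime → B < q → ∀ Q : Ideal (𝓞 (AlgebraicClosure F)), Q.IsMaximal →
      (q : 𝓞 (AlgebraicClosure F)) ∈ Q → y ∉ Q := by
  have hint : IsIntegral ℤ y := RingOfIntegers.isIntegral y
  have h1 := Ideal.comap_ne_bot_of_integral_mem (R := ℤ) (I := Ideal.span {y}) hy
    (Ideal.mem_span_singleton_self y) hint
  obtain ⟨c, hc, hc0⟩ := (Submodule.ne_bot_iff _).1 h1
  rw [Ideal.mem_comap] at hc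
  refine ⟨c.natAbs, fun q hq hcq Q hQ hqQ hyQ => ?_⟩
  have h2 : algebraMap ℤ (𝓞 (AlgebraicClosure F)) c ∈ Q := by
    refine (Ideal.span_le.2 ?_) hc
    rw [Set.singleton_subset_iff]
    exact hyQ
  have hcop : IsCoprime (q : ℤ) c := by
    rw [Int.isCoprime_iff_gcd_eq_one, Int.gcd, Int.natAbs_natCast]
    rw [← Nat.coprime_iff_gcd_eq_one, hq.coprime_iff_not_dvd]
    intro h3
    have := Nat.le_of_dvd (Int.natAbs_pos.2 hc0) h3
    omega
  obtain ⟨u, v, huv⟩ := hcop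
  apply hQ.ne_top
  rw [Ideal.eq_top_iff_one]
  have h3 : (1 : 𝓞 (AlgebraicClosure F)) = algebraMap ℤ _ u * (q : 𝓞 (AlgebraicClosure F)) +
      algebraMap ℤ _ v * algebraMap ℤ _ c := by
    have h4 := congrArg (algebraMap ℤ (𝓞 (AlgebraicClosure F))) huv
    rw [map_add, map_mul, map_mul, map_one] at h4
    rw [← h4]
    simp
  rw [h3]
  exact Q.add_mem (Q.mul_mem_left _ hqQ) (Q.mul_mem_left _ h2)

/-- the map of rings of integers -/
noncomputable abbrev intEmb (ψ : E →+* AlgebraicClosure F) : 𝓞 E →+* 𝓞 (AlgebraicClosure F) :=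
  RingOfIntegers.mapRingHom ψ

theorem intEmb_coe (ψ : E →+* AlgebraicClosure F) (x : 𝓞 E) :
    ((intEmb ψ x : 𝓞 (AlgebraicClosure F)) : AlgebraicClosure F) = ψ (x : E) := rfl

noncomputable instance finite_emb : Finite (E →+* AlgebraicClosure F) :=
  Finite.of_equiv _ (RingHom.equivRatAlgHom E (AlgebraicClosure F)).symm

/-- an integral generator -/
theorem exists_generator : ∃ θ : 𝓞 E, ∀ ψ ψ' : E →+* AlgebraicClosure F,
    ψ (θ : E) = ψ' (θ : E) → ψ = ψ' := by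
  obtain ⟨α, hα⟩ := Field.exists_primitive_element ℚ E
  have halg : IsAlgebraic ℤ α := (IsFractionRing.isAlgebraic_iff ℤ ℚ E).2
    (Algebra.IsAlgebraic.isAlgebraic α)
  obtain ⟨y, hy0, hy⟩ := halg.exists_integral_multiple
  refine ⟨⟨y • α, hy⟩, fun ψ ψ' h => ?_⟩
  have h1 : ψ (y • α) = ψ' (y • α) := h
  rw [zsmul_eq_mul, map_mul, map_mul, map_intCast, map_intCast] at h1
  have h2 : ψ α = ψ' α := mul_left_cancel₀ (by exact_mod_cast hy0) h1
  ext x
  have hx : x ∈ IntermediateField.adjoin ℚ {α} := by rw [hα]; trivial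
  induction hx using IntermediateField.adjoin_induction with
  | mem x hx =>
    rw [Set.mem_singleton_iff] at hx
    rw [hx]
    exact h2
  | algebraMap r => rw [eq_ratCast, map_ratCast, map_ratCast]
  | add x y _ _ hx hy => rw [map_add, map_add, hx, hy]
  | inv x _ hx => rw [map_inv₀, map_inv₀, hx]
  | mul x y _ _ hx hy => rw [map_mul, map_mul, hx, hy]

/-- the integers in an ideal above `q` are divisible by `q` -/
theorem dvd_of_mem {R : Type} [CommRing R] {q : ℕ} (hq : q.Prime) (𝔓 : Ideal R) (h𝔓 : 𝔓 ≠ ⊤)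
    (hqP : (q : R) ∈ 𝔓) {c : ℕ} (hc : (c : R) ∈ 𝔓) : q ∣ c := by
  by_contra hcon
  have h1 : Nat.Coprime q c := (hq.coprime_iff_not_dvd).2 hcon
  have h2 : IsCoprime (q : ℤ) (c : ℤ) := Nat.isCoprime_iff_coprime.2 h1
  obtain ⟨u, v, huv⟩ := h2
  apply h𝔓
  rw [Ideal.eq_top_iff_one]
  have h3 : (1 : R) = (u : R) * (q : R) + (v : R) * (c : R) := by
    have h4 := congrArg (Int.cast : ℤ → R) huv
    push_cast at h4
    exact h4.symm
  rw [h3]
  exact 𝔓.add_mem (𝔓.mul_mem_left _ hqP) (𝔓.mul_mem_left _ hc)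

/-- prime avoidance: every maximal ideal above `q` comes from some embedding -/
theorem exists_emb {q : ℕ} (hq : q.Prime) (Q : Ideal (𝓞 (AlgebraicClosure F))) [hQ : Q.IsMaximal]
    (hqQ : (q : 𝓞 (AlgebraicClosure F)) ∈ Q) (𝔓 : Ideal (𝓞 E)) [h𝔓 : 𝔓.IsMaximal]
    (hqP : (q : 𝓞 E) ∈ 𝔓) : ∃ ψ : E →+* AlgebraicClosure F, 𝔓 = Q.comap (intEmb ψ) := by
  classical
  cases nonempty_fintype (E →+* AlgebraicClosure F)
  by_contra hcon
  push Not at hcon
  have hQp : Q.IsPrime := hQ.isPrime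
  have hprime : ∀ ψ : E →+* AlgebraicClosure F, (Q.comap (intEmb ψ)).IsPrime := fun ψ =>
    Ideal.comap_isPrime _ _
  let ψ₀ : E →+* AlgebraicClosure F :=
    ((IsAlgClosed.lift : E →ₐ[ℚ] AlgebraicClosure F) : E →+* AlgebraicClosure F)
  have h1 : ¬ ((𝔓 : Set (𝓞 E)) ⊆ ⋃ ψ ∈ ((Finset.univ : Finset (E →+* AlgebraicClosure F)) :
      Set (E →+* AlgebraicClosure F)), (Q.comap (intEmb ψ) : Set (𝓞 E))) := by
    rw [Ideal.subset_union_prime ψ₀ ψ₀ (fun ψ _ _ _ => hprime ψ)]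
    rintro ⟨ψ, -, hle⟩
    exact hcon ψ (h𝔓.eq_of_le (hprime ψ).ne_top hle)
  rw [Set.not_subset] at h1
  obtain ⟨x, hx, hxQ⟩ := h1
  simp only [Finset.coe_univ, Set.mem_univ, Set.iUnion_true, Set.mem_iUnion, not_exists] at hxQ
  -- the norm of `x`
  have hmem : ((Algebra.norm ℤ x).natAbs : 𝓞 E) ∈ 𝔓 := by
    rw [← Ideal.absNorm_span_singleton]
    refine (Ideal.span_le.2 ?_) (Ideal.absNorm_mem _)
    rw [Set.singleton_subset_iff]
    exact hx
  have hdvd := dvd_of_mem hq 𝔓 h𝔓.ne_top hqP hmem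
  have hprod : (((Algebra.norm ℤ x : ℤ)) : 𝓞 (AlgebraicClosure F)) =
      ∏ ψ : E →+* AlgebraicClosure F, intEmb ψ x := by
    apply FaithfulSMul.algebraMap_injective (𝓞 (AlgebraicClosure F)) (AlgebraicClosure F)
    rw [map_prod, map_intCast]
    have h2 := Algebra.norm_eq_prod_embeddings ℚ (AlgebraicClosure F) (x : E)
    have h3 : ((Algebra.norm ℤ x : ℤ) : AlgebraicClosure F) =
        algebraMap ℚ (AlgebraicClosure F) (Algebra.norm ℚ (x : E)) := by
      rw [← Algebra.coe_norm_int]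
      simp
    rw [h3, h2]
    exact (Fintype.prod_equiv (RingHom.equivRatAlgHom E (AlgebraicClosure F)) _ _
      fun ψ => rfl).symm
  have hnot : (((Algebra.norm ℤ x : ℤ)) : 𝓞 (AlgebraicClosure F)) ∉ Q := by
    rw [hprod, hQp.prod_mem_iff]
    rintro ⟨ψ, -, h⟩
    exact hxQ ψ h
  apply hnot
  have h4 : (q : ℤ) ∣ Algebra.norm ℤ x := Int.natCast_dvd.2 hdvd
  obtain ⟨k, hk⟩ := h4
  rw [hk]
  push_cast
  exact Q.mul_mem_right _ hqQ

/-- powers of a Frobenius element -/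
theorem frob_pow {v : HeightOneSpectrum (𝓞 F)} {σ : GK F} {Q : Ideal (𝓞 (AlgebraicClosure F))}
    [hQ : Q.IsMaximal]
    (hσ : ∀ x : 𝓞 (AlgebraicClosure F), σ • x - x ^ Ideal.absNorm v.asIdeal ∈ Q) (k : ℕ)
    (x : 𝓞 (AlgebraicClosure F)) : (σ ^ k) • x - x ^ (Ideal.absNorm v.asIdeal ^ k) ∈ Q := by
  have hq0 : Ideal.absNorm v.asIdeal ≠ 0 := fun h0 => v.ne_bot (Ideal.absNorm_eq_zero_iff.1 h0)
  have hst : ∀ z ∈ Q, σ • z ∈ Q := by
    intro z hz
    have h1 : z ^ Ideal.absNorm v.asIdeal ∈ Q := Q.pow_mem_of_mem hz _ (Nat.pos_of_ne_zero hq0)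
    have h2 := Q.add_mem (hσ z) h1
    rwa [sub_add_cancel] at h2
  induction k with
  | zero => simp
  | succ k ih =>
    have h1 := hst _ ih
    have h2 := hσ (x ^ (Ideal.absNorm v.asIdeal ^ k))
    rw [smul_sub] at h1
    have h3 : (σ ^ (k + 1)) • x - x ^ (Ideal.absNorm v.asIdeal ^ (k + 1)) =
        (σ • (σ ^ k • x) - σ • x ^ (Ideal.absNorm v.asIdeal ^ k)) +
        (σ • x ^ (Ideal.absNorm v.asIdeal ^ k) -
          (x ^ (Ideal.absNorm v.asIdeal ^ k)) ^ Ideal.absNorm v.asIdeal) := by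
      rw [pow_succ' σ, mul_smul, pow_succ (Ideal.absNorm v.asIdeal), pow_mul]
      ring
    rw [h3]
    exact Q.add_mem h1 h2

/-- **Residue degrees are orbit lengths.** -/
theorem exists_bound : ∃ B : ℕ, ∀ v : HeightOneSpectrum (𝓞 F), (Ideal.absNorm v.asIdeal).Prime →
    B < Ideal.absNorm v.asIdeal → ∀ σ : GK F, IsFrob v σ → ∀ 𝔓 : Ideal (𝓞 E), 𝔓.IsMaximal →
      ((Ideal.absNorm v.asIdeal : ℕ) : 𝓞 E) ∈ 𝔓 → ∃ (ψ : E →+* AlgebraicClosure F) (f : ℕ),
        0 < f ∧ Ideal.absNorm 𝔓 = Ideal.absNorm v.asIdeal ^ f ∧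
          ∀ x, (σ ^ f) (ψ x) = ψ x := by
  classical
  obtain ⟨θ, hθ⟩ := exists_generator (F := F) (E := E)
  cases nonempty_fintype (E →+* AlgebraicClosure F)
  -- a bound for all differences
  have hb : ∀ ψψ : (E →+* AlgebraicClosure F) × (E →+* AlgebraicClosure F), ∃ B : ℕ,
      ψψ.1 ≠ ψψ.2 → ∀ q : ℕ, q.Prime → B < q → ∀ Q : Ideal (𝓞 (AlgebraicClosure F)),
        Q.IsMaximal → (q : 𝓞 (AlgebraicClosure F)) ∈ Q → intEmb ψψ.1 θ - intEmb ψψ.2 θ ∉ Q := by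
    rintro ⟨ψ, ψ'⟩
    by_cases h : ψ = ψ'
    · exact ⟨0, fun h' => absurd h h'⟩
    · obtain ⟨B, hB⟩ := bound_of_mem (F := F) (intEmb ψ θ - intEmb ψ' θ) (by
        intro h0
        apply h
        apply hθ
        have h1 := congrArg (fun z : 𝓞 (AlgebraicClosure F) => (z : AlgebraicClosure F))
          (sub_eq_zero.1 h0)
        exact h1)
      exact ⟨B, fun _ => hB⟩
  choose B hB using hb
  refine ⟨∑ x, B x, fun v hv hBv σ ⟨Q, hQ, hQv, hσ⟩ 𝔓 h𝔓 hqP => ?_⟩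
  set q := Ideal.absNorm v.asIdeal with hq
  have hqQ : (q : 𝓞 (AlgebraicClosure F)) ∈ Q := by
    have h1 : ((q : ℕ) : 𝓞 F) ∈ v.asIdeal := Ideal.absNorm_mem _
    rw [← hQv, Ideal.mem_comap, map_natCast] at h1
    exact h1
  obtain ⟨ψ, hψ⟩ := exists_emb hv Q hqQ 𝔓 hqP
  obtain ⟨f, hf, hN⟩ := absNorm_eq_pow hv 𝔓 hqP
  refine ⟨ψ, f, hf, hN, ?_⟩
  -- the residue field
  have hres : ∀ x : 𝓞 E, x ^ (q ^ f) - x ∈ 𝔓 := by
    intro x
    have hne : 𝔓 ≠ ⊥ := by
      rintro rfl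
      rw [Ideal.mem_bot] at hqP
      exact hv.ne_zero (by exact_mod_cast hqP)
    letI := Ideal.Quotient.field 𝔓
    haveI : Finite (𝓞 E ⧸ 𝔓) := Ideal.finiteQuotientOfFreeOfNeBot _ hne
    cases nonempty_fintype (𝓞 E ⧸ 𝔓)
    have h1 : Fintype.card (𝓞 E ⧸ 𝔓) = q ^ f := by
      rw [← hN, Ideal.absNorm_apply, Submodule.cardQuot_apply]
      exact Nat.card_eq_fintype_card.symm
    rw [← Ideal.Quotient.eq_zero_iff_mem, map_sub, map_pow, ← h1, FiniteField.pow_card, sub_self]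
  let ψ' : E →+* AlgebraicClosure F :=
    ((σ ^ f : GK F) : AlgebraicClosure F →+* AlgebraicClosure F).comp ψ
  have hψ' : ψ' = ψ := by
    by_contra hne
    refine hB (ψ', ψ) hne q hv ?_ Q hQ hqQ ?_
    · exact lt_of_le_of_lt (Finset.single_le_sum (fun _ _ => Nat.zero_le _)
        (Finset.mem_univ (ψ', ψ))) hBv
    · have h1 := frob_pow hσ f (intEmb ψ θ)
      have h2 : intEmb ψ (θ ^ (q ^ f) - θ) ∈ Q := by
        have h3 := hres θ
        rw [hψ, Ideal.mem_comap] at h3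
        exact h3
      rw [map_sub, map_pow] at h2
      have h3 : intEmb ψ' θ = (σ ^ f) • intEmb ψ θ := RingOfIntegers.ext rfl
      change intEmb ψ' θ - intEmb ψ θ ∈ Q
      have h4 := Q.add_mem h1 h2
      rw [sub_add_sub_cancel] at h4
      rw [h3]
      exact h4
  intro x
  exact RingHom.congr_fun hψ' x

end Pool.Agent.H850.OP
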