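import Pool.Agent.H850.OP.Norms

/-!
# The integral relation at a place which is not ordinary
-/

set_option autoImplicit false
set_option linter.unusedSectionVars false

namespace Pool.Agent.H850.OP

open Polynomial NumberField

variable {E : Type} [Field E] [NumberField E]

/-- the residue field of a maximal ideal containing the prime `q` has `q ^ f` elements -/
theorem absNorm_eq_pow {q : ℕ} (hq : q.Prime) (𝔓 : Ideal (𝓞 E)) [h𝔓 : 𝔓.IsMaximal]
    (hqP : (q : 𝓞 E) ∈ 𝔓) : ∃ f, 0 < f ∧ Ideal.absNorm 𝔓 = q ^ f := by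
  have hne : 𝔓 ≠ ⊥ := by
    rintro rfl
    rw [Ideal.mem_bot] at hqP
    exact hq.ne_zero (by exact_mod_cast hqP)
  letI := Ideal.Quotient.field 𝔓
  haveI : Finite (𝓞 E ⧸ 𝔓) := Ideal.finiteQuotientOfFreeOfNeBot _ hne
  cases nonempty_fintype (𝓞 E ⧸ 𝔓)
  obtain ⟨p, hc⟩ := CharP.exists (𝓞 E ⧸ 𝔓)
  obtain ⟨k, hp, hk⟩ := FiniteField.card (𝓞 E ⧸ 𝔓) p
  have h1 : ((q : ℕ) : 𝓞 E ⧸ 𝔓) = 0 := by
    have := Ideal.Quotient.eq_zero_iff_mem.2 hqP
    rwa [map_natCast] at this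
  have h2 : p ∣ q := (CharP.cast_eq_zero_iff _ p q).1 h1
  have h3 : p = q := (Nat.prime_dvd_prime_iff_eq hp hq).1 h2
  refine ⟨k, k.pos, ?_⟩
  rw [Ideal.absNorm_apply, Submodule.cardQuot_apply, ← h3, ← hk]
  exact Nat.card_eq_fintype_card

theorem absNorm_dvd {𝔓 : Ideal (𝓞 E)} {b : 𝓞 E} (hb : b ∈ 𝔓) :
    Ideal.absNorm 𝔓 ∣ (Algebra.norm ℤ b).natAbs := by
  rw [← Ideal.absNorm_span_singleton]
  apply Ideal.absNorm_dvd_absNorm_of_le
  rw [Ideal.span_le, Set.singleton_subset_iff]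
  exact hb

theorem norm_pow_mul (q h : ℕ) (b : 𝓞 E) :
    (Algebra.norm ℤ ((q : 𝓞 E) ^ h * b)).natAbs =
      q ^ (Module.finrank ℚ E * h) * (Algebra.norm ℤ b).natAbs := by
  rw [map_mul, map_pow, Int.natAbs_mul, Int.natAbs_pow]
  congr 1
  have h1 : Algebra.norm ℤ ((q : ℕ) : 𝓞 E) = (q : ℤ) ^ Module.finrank ℚ E := by
    have h2 := Algebra.norm_algebraMap (R := ℤ) (S := 𝓞 E) (q : ℤ)
    rw [RingOfIntegers.rank] at h2
    rw [← h2]
    congr 1
    simp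
  rw [h1, Int.natAbs_pow, Int.natAbs_natCast, ← pow_mul]

variable {P : (𝓞 E)[X]} {n q w : ℕ}

/-- **The relation at a place which is not ordinary.** -/
theorem relation (hq : q.Prime) (hW : IsWeil P q w) (hP : P.Monic) (hn : P.natDegree = n) {m : ℕ}
    (hm : m ≤ n) (hqb : (n.choose m ^ Module.finrank ℚ E) ^ 2 < q) {h : ℕ} {b : 𝓞 E}
    (hb : P.coeff (n - m) = (q : 𝓞 E) ^ h * b) (𝔓 : Ideal (𝓞 E)) [h𝔓 : 𝔓.IsMaximal]
    (hqP : (q : 𝓞 E) ∈ 𝔓) (hbP : b ∈ 𝔓)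
    (hlarge : q ^ (Module.finrank ℚ E * w * m) ≤
      Ideal.absNorm 𝔓 ^ 2 * q ^ (2 * (Module.finrank ℚ E * h))) :
    ∃ c ≤ n.choose m ^ Module.finrank ℚ E,
      (Algebra.norm ℤ (P.coeff (n - m))).natAbs ^ 2 = c ^ 2 * q ^ (Module.finrank ℚ E * w * m) := by
  obtain ⟨f, hf, hN⟩ := absNorm_eq_pow hq 𝔓 hqP
  obtain ⟨t, ht⟩ := absNorm_dvd hbP
  have hle := norm_le hW hP hn hm
  have heq : (Algebra.norm ℤ (P.coeff (n - m))).natAbs =
      q ^ (Module.finrank ℚ E * h) * (q ^ f * t) := by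
    rw [hb, norm_pow_mul, ht, hN]
  set C := n.choose m ^ Module.finrank ℚ E with hC
  set A := Module.finrank ℚ E * w * m with hA
  set H := Module.finrank ℚ E * h with hH
  have hq1 : 1 < q := hq.one_lt
  rw [hN, ← pow_mul, ← pow_add] at hlarge
  have hexp : A ≤ f * 2 + 2 * H := (Nat.pow_le_pow_iff_right hq1).1 hlarge
  have heq2 : (Algebra.norm ℤ (P.coeff (n - m))).natAbs ^ 2 = q ^ (f * 2 + 2 * H) * t ^ 2 := by
    rw [heq, mul_pow, mul_pow, ← pow_mul, ← pow_mul, pow_add]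
    rw [mul_comm H 2]
    ring
  rcases Nat.eq_or_lt_of_le hexp with h1 | h1
  · refine ⟨t, ?_, ?_⟩
    · rw [heq2, ← h1] at hle
      have hpos : 0 < q ^ A := pow_pos hq.pos _
      have h2 : t ^ 2 ≤ C ^ 2 := by
        have : q ^ A * t ^ 2 ≤ q ^ A * C ^ 2 := by rw [mul_comm (q ^ A) (C ^ 2)]; exact hle
        exact Nat.le_of_mul_le_mul_left this hpos
      exact (Nat.pow_le_pow_iff_left (by norm_num)).1 h2
    · rw [heq2, ← h1, mul_comm]
  · have h2 : t = 0 := by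
      by_contra ht0
      have ht1 : 1 ≤ t ^ 2 := Nat.one_le_pow _ _ (Nat.pos_of_ne_zero ht0)
      have h3 : q ^ (A + 1) ≤ C ^ 2 * q ^ A := by
        calc q ^ (A + 1) ≤ q ^ (f * 2 + 2 * H) := Nat.pow_le_pow_right hq.pos h1
          _ ≤ q ^ (f * 2 + 2 * H) * t ^ 2 := Nat.le_mul_of_pos_right _ (by omega)
          _ = _ := heq2.symm
          _ ≤ _ := hle
      rw [pow_succ'] at h3
      have h4 : q ≤ C ^ 2 := Nat.le_of_mul_le_mul_right h3 (pow_pos hq.pos _)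
      omega
    refine ⟨0, Nat.zero_le _, ?_⟩
    rw [heq2, h2]
    simp

/-- the relation between two coefficients -/
theorem relation' (hW : IsWeil P q w) (hP : P.Monic) (hn : P.natDegree = n) {m c : ℕ}
    (h : (Algebra.norm ℤ (P.coeff (n - m))).natAbs ^ 2 =
      c ^ 2 * q ^ (Module.finrank ℚ E * w * m)) :
    (Algebra.norm ℤ (P.coeff (n - m))) ^ (2 * n) =
      (c : ℤ) ^ (2 * n) * (Algebra.norm ℤ (P.coeff 0)) ^ (2 * m) := by
  have h0 := norm_zero hW hP hn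
  have h1 : (Algebra.norm ℤ (P.coeff (n - m))) ^ 2 =
      (c : ℤ) ^ 2 * (q : ℤ) ^ (Module.finrank ℚ E * w * m) := by
    rw [← Int.natAbs_sq]
    exact_mod_cast h
  have h2 : (Algebra.norm ℤ (P.coeff 0)) ^ 2 = (q : ℤ) ^ (Module.finrank ℚ E * w * n) := by
    rw [← Int.natAbs_sq]
    exact_mod_cast h0
  rw [pow_mul, pow_mul, pow_mul, h1, h2]
  ring

/-- conversely, the relation with the largest constant -/
theorem relation_top (hq : 0 < q) (hn0 : 0 < n) (hW : IsWeil P q w) (hP : P.Monic)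
    (hn : P.natDegree = n) {m : ℕ}
    (h : (Algebra.norm ℤ (P.coeff (n - m))) ^ (2 * n) =
      ((n.choose m ^ Module.finrank ℚ E : ℕ) : ℤ) ^ (2 * n) *
        (Algebra.norm ℤ (P.coeff 0)) ^ (2 * m)) :
    (Algebra.norm ℤ (P.coeff (n - m))).natAbs ^ 2 =
      (n.choose m ^ Module.finrank ℚ E) ^ 2 * q ^ (Module.finrank ℚ E * w * m) := by
  have h0 := norm_zero hW hP hn
  set C := n.choose m ^ Module.finrank ℚ E with hC
  have h1 : ((Algebra.norm ℤ (P.coeff (n - m))).natAbs ^ 2) ^ n =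
      (C ^ 2 * q ^ (Module.finrank ℚ E * w * m)) ^ n := by
    have h2 := congrArg Int.natAbs h
    rw [Int.natAbs_pow, Int.natAbs_mul, Int.natAbs_pow, Int.natAbs_pow, Int.natAbs_natCast] at h2
    rw [← pow_mul, h2, pow_mul _ 2 m, h0]
    ring
  exact Nat.pow_left_injective hn0.ne' h1

end Pool.Agent.H850.OP
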