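import Mathlib

/-!
# Coefficients of polynomials whose roots have the same absolute value
-/

set_option autoImplicit false

namespace Pool.Agent.H850.OP

open Polynomial

/-- numbers of absolute value `R` whose sum has the largest possible absolute value are equal -/
theorem eq_of_norm_sum (T : Multiset ℂ) (R : ℝ) (hT : ∀ z ∈ T, ‖z‖ = R)
    (hs : T.card * R ≤ ‖T.sum‖) : ∀ x ∈ T, ∀ y ∈ T, x = y := by
  intro x hx y hy
  by_cases hxy : x = y
  · exact hxy
  obtain ⟨T₁, rfl⟩ := Multiset.exists_cons_of_mem hx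
  have hy1 : y ∈ T₁ := by
    rcases Multiset.mem_cons.1 hy with h | h
    · exact absurd h.symm hxy
    · exact h
  obtain ⟨T₂, rfl⟩ := Multiset.exists_cons_of_mem hy1
  have h2 : ‖T₂.sum‖ ≤ T₂.card * R := by
    clear hs hx hy hy1
    have h3 : ∀ z ∈ T₂, ‖z‖ = R := fun z hz =>
      hT z (Multiset.mem_cons_of_mem (Multiset.mem_cons_of_mem hz))
    clear hT
    induction T₂ using Multiset.induction_on with
    | empty => simp
    | cons a T ih =>
      rw [Multiset.sum_cons, Multiset.card_cons]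
      refine (norm_add_le _ _).trans ?_
      have h4 := ih fun z hz => h3 z (Multiset.mem_cons_of_mem hz)
      rw [h3 a (Multiset.mem_cons_self _ _)]
      push_cast
      linarith
  have hxR := hT x (Multiset.mem_cons_self _ _)
  have hyR := hT y (Multiset.mem_cons_of_mem (Multiset.mem_cons_self _ _))
  rw [Multiset.sum_cons, Multiset.sum_cons, Multiset.card_cons, Multiset.card_cons] at hs
  push_cast at hs
  have h5 : ‖x + (y + T₂.sum)‖ ≤ ‖x + y‖ + ‖T₂.sum‖ := by
    rw [← add_assoc]
    exact norm_add_le _ _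
  have h6 : ‖x + y‖ = ‖x‖ + ‖y‖ := by
    apply le_antisymm (norm_add_le _ _)
    rw [hxR, hyR]
    linarith
  have h7 : SameRay ℝ x y := sameRay_iff_norm_add.2 h6
  exact (sameRay_iff_of_norm_eq (hxR.trans hyR.symm)).1 h7

/-- the bound for the coefficients -/
theorem norm_esymm_le (s : Multiset ℂ) (r : ℝ) (hs : ∀ z ∈ s, ‖z‖ = r) (m : ℕ) :
    ‖s.esymm m‖ ≤ s.card.choose m * r ^ m := by
  have h1 : ∀ t ∈ s.powersetCard m, ‖t.prod‖ = r ^ m := by
    intro t ht
    obtain ⟨hle, hc⟩ := Multiset.mem_powersetCard.1 ht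
    rw [← hc]
    have h2 : ∀ z ∈ t, ‖z‖ = r := fun z hz => hs z (Multiset.mem_of_le hle hz)
    clear hc hle ht
    induction t using Multiset.induction_on with
    | empty => simp
    | cons a t ih =>
      rw [Multiset.prod_cons, norm_mul, h2 a (Multiset.mem_cons_self _ _),
        ih fun z hz => h2 z (Multiset.mem_cons_of_mem hz), Multiset.card_cons, pow_succ']
  rw [Multiset.esymm, ← Multiset.card_powersetCard]
  generalize s.powersetCard m = U at h1 ⊢
  induction U using Multiset.induction_on with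
  | empty => simp
  | cons a U ih =>
    rw [Multiset.map_cons, Multiset.sum_cons, Multiset.card_cons]
    refine (norm_add_le _ _).trans ?_
    rw [h1 a (Multiset.mem_cons_self _ _)]
    have h4 := ih fun z hz => h1 z (Multiset.mem_cons_of_mem hz)
    push_cast
    linarith

theorem norm_prod_eq (s : Multiset ℂ) (r : ℝ) (hs : ∀ z ∈ s, ‖z‖ = r) :
    ‖s.prod‖ = r ^ s.card := by
  induction s using Multiset.induction_on with
  | empty => simp
  | cons a t ih =>
    rw [Multiset.prod_cons, norm_mul, hs a (Multiset.mem_cons_self _ _),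
      ih fun z hz => hs z (Multiset.mem_cons_of_mem hz), Multiset.card_cons, pow_succ']

/-- the case of equality -/
theorem roots_eq_of_norm_esymm (s : Multiset ℂ) (r : ℝ) (hr : 0 < r) (hs : ∀ z ∈ s, ‖z‖ = r)
    (m : ℕ) (hm0 : 0 < m) (hm : m < s.card)
    (h : s.card.choose m * r ^ m ≤ ‖s.esymm m‖) : ∀ x ∈ s, ∀ y ∈ s, x = y := by
  intro x hx y hy
  by_cases hxy : x = y
  · exact hxy
  have h1 : ∀ z ∈ (s.powersetCard m).map Multiset.prod, ‖z‖ = r ^ m := by
    intro z hz
    obtain ⟨t, ht, rfl⟩ := Multiset.mem_map.1 hz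
    obtain ⟨hle, hc⟩ := Multiset.mem_powersetCard.1 ht
    rw [norm_prod_eq t r fun z hz => hs z (Multiset.mem_of_le hle hz), hc]
  have h2 := eq_of_norm_sum ((s.powersetCard m).map Multiset.prod) (r ^ m) h1 (by
    rw [Multiset.card_map, Multiset.card_powersetCard]
    exact h)
  obtain ⟨T₁, rfl⟩ := Multiset.exists_cons_of_mem hx
  have hy1 : y ∈ T₁ := by
    rcases Multiset.mem_cons.1 hy with h | h
    · exact absurd h.symm hxy
    · exact h
  obtain ⟨T₂, rfl⟩ := Multiset.exists_cons_of_mem hy1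
  rw [Multiset.card_cons, Multiset.card_cons] at hm
  obtain ⟨u, hu, huc⟩ : ∃ u ≤ T₂, u.card = m - 1 := by
    have h3 : 0 < (T₂.powersetCard (m - 1)).card := by
      rw [Multiset.card_powersetCard]
      exact Nat.choose_pos (by omega)
    obtain ⟨u, hu⟩ := Multiset.card_pos_iff_exists_mem.1 h3
    exact ⟨u, (Multiset.mem_powersetCard.1 hu).1, (Multiset.mem_powersetCard.1 hu).2⟩
  have hxu : (x ::ₘ u).prod ∈ ((x ::ₘ y ::ₘ T₂).powersetCard m).map Multiset.prod := by
    refine Multiset.mem_map.2 ⟨_, Multiset.mem_powersetCard.2 ⟨?_, ?_⟩, rfl⟩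
    · exact Multiset.cons_le_cons _ (hu.trans (Multiset.le_cons_self _ _))
    · rw [Multiset.card_cons, huc]
      omega
  have hyu : (y ::ₘ u).prod ∈ ((x ::ₘ y ::ₘ T₂).powersetCard m).map Multiset.prod := by
    refine Multiset.mem_map.2 ⟨_, Multiset.mem_powersetCard.2 ⟨?_, ?_⟩, rfl⟩
    · exact (Multiset.cons_le_cons _ hu).trans (Multiset.le_cons_self _ _)
    · rw [Multiset.card_cons, huc]
      omega
  have h3 := h2 _ hxu _ hyu
  rw [Multiset.prod_cons, Multiset.prod_cons] at h3
  have h4 : u.prod ≠ 0 := by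
    rw [← norm_ne_zero_iff, norm_prod_eq u r fun z hz =>
      hs z (Multiset.mem_cons_of_mem (Multiset.mem_cons_of_mem (Multiset.mem_of_le hu hz)))]
    positivity
  exact mul_right_cancel₀ h4 h3

theorem norm_coeff_eq (P : ℂ[X]) (hP : P.Monic) {n m : ℕ} (hn : P.natDegree = n) (hm : m ≤ n) :
    ‖P.coeff (n - m)‖ = ‖P.roots.esymm m‖ ∧ P.roots.card = n := by
  have hc : P.roots.card = P.natDegree := (IsAlgClosed.splits P).natDegree_eq_card_roots.symm
  refine ⟨?_, hc.trans hn⟩
  have h1 := Polynomial.coeff_eq_esymm_roots_of_card hc (k := n - m) (by omega)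
  rw [h1, hP.leadingCoeff, one_mul, norm_mul, norm_pow, norm_neg, norm_one, one_pow, one_mul]
  congr 2
  omega

end Pool.Agent.H850.OP
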