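import Mathlib

/-!
# The norm as a product over the embeddings into `ℚ_ℓ`
-/

set_option autoImplicit false

namespace Pool.Agent.H850.OP

open NumberField

variable {E : Type} [Field E] [NumberField E]

theorem norm_eq_prod_field {L : Type} [Field L] [CharZero L] [Finite (E →+* L)]
    (hL : Nat.card (E →+* L) = Module.finrank ℚ E) [Fintype (E →+* L)] (a : 𝓞 E) :
    ((Algebra.norm ℤ a : ℤ) : L) = ∏ ι : E →+* L, ι (a : E) := by
  classical
  letI : Algebra ℚ L := DivisionRing.toRatAlgebra
  let Ω := AlgebraicClosure L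
  letI : Algebra ℚ Ω := DivisionRing.toRatAlgebra
  have h1 := Algebra.norm_eq_prod_embeddings ℚ Ω (a : E)
  have hcard : Fintype.card (E →ₐ[ℚ] Ω) = Module.finrank ℚ E := AlgHom.card ℚ E Ω
  let f : (E →+* L) → (E →ₐ[ℚ] Ω) := fun ι =>
    RingHom.equivRatAlgHom E Ω ((algebraMap L Ω).comp ι)
  have hf : Function.Injective f := by
    intro ι ι' h
    have h2 := (RingHom.equivRatAlgHom E Ω).injective h
    ext x
    have h3 := RingHom.congr_fun h2 x
    exact (algebraMap L Ω).injective h3
  have hbij : Function.Bijective f := by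
    rw [Fintype.bijective_iff_injective_and_card]
    refine ⟨hf, ?_⟩
    rw [hcard, ← hL, Nat.card_eq_fintype_card]
  apply (algebraMap L Ω).injective
  rw [map_prod]
  have h2 : algebraMap L Ω ((Algebra.norm ℤ a : ℤ) : L) =
      algebraMap ℚ Ω (Algebra.norm ℚ (a : E)) := by
    rw [← Algebra.coe_norm_int]
    simp
  rw [h2, h1]
  exact (Fintype.prod_bijective f hbij _ _ fun ι => rfl).symm

end Pool.Agent.H850.OP
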